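import Mathlib

/-!
# Clopen versus regular closed sets in closure spaces of semilattice type

This disproves Q1 of MP_df2171_co: there is a (countable) closure space of semilattice type whose
clopen subsets form a lattice although not every regular closed subset is clopen.
-/

namespace Pool.Agent.Results.MP_df2171_co.ClopVersusReg

open Set

universe u

/-- A closure space: a closure operator `φ` on the subsets of `P` with `φ ∅ = ∅`. -/
structure ClosureSpace (P : Type u) where
  /-- the closure operator -/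
  φ : Set P → Set P
  extensive : ∀ a, a ⊆ φ a
  monotone : ∀ a b, a ⊆ b → φ a ⊆ φ b
  idempotent : ∀ a, φ (φ a) = φ a
  empty : φ ∅ = ∅

namespace ClosureSpace

variable {P : Type u} (K : ClosureSpace P)

/-- `a` is closed. -/
def IsClosed (a : Set P) : Prop := K.φ a = a

/-- `a` is open. -/
def IsOpen (a : Set P) : Prop := K.IsClosed aᶜ

/-- The interior of `a`. -/
def interior (a : Set P) : Set P := (K.φ aᶜ)ᶜ

/-- `Clop(P, φ)`. -/
def Clop : Set (Set P) := {a | K.IsClosed a ∧ K.IsOpen a}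

/-- `Reg(P, φ)`. -/
def Reg : Set (Set P) := {a | a = K.φ (K.interior a)}

/-- `(P, φ)` is algebraic. -/
def IsAlgebraic : Prop := ∀ x : Set P, K.φ x = ⋃ y ∈ {y : Set P | y ⊆ x ∧ y.Finite}, K.φ y

/-- `x` is a minimal covering of `p`. -/
def IsMinimalCovering (x : Set P) (p : P) : Prop :=
  p ∈ K.φ x ∧ ∀ y, y ⊆ x → p ∈ K.φ y → y = x

/-- `(P, φ)` has semilattice type. -/
def HasSemilatticeType : Prop :=
  K.IsAlgebraic ∧ ∃ _ : PartialOrder P, ∀ (x : Set P) (p : P), K.IsMinimalCovering x p → IsLUB x p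

/-- `Clop(P, φ)`, partially ordered by inclusion, is a lattice. -/
def ClopIsLattice : Prop :=
  ∀ a b : K.Clop, (∃ c : K.Clop, IsLUB {a, b} c) ∧ (∃ c : K.Clop, IsGLB {a, b} c)

end ClosureSpace

/-! ## The example -/

/-- The underlying set of the example. -/
inductive El : Type
  | u (n : ℕ)
  | x (n : ℕ)
  | al (n : ℕ)
  | be (n : ℕ)
  | p (n : ℕ)

open El

/-- The order of the example. -/
def le : El → El → Prop
  | u m, u n => n ≤ m
  | u m, x n => n < m
  | u m, p n => n ≤ m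
  | u _, al _ => False
  | u _, be _ => False
  | x m, u n => n < m
  | x m, x n => n ≤ m
  | x m, p n => n ≤ m
  | x _, al _ => False
  | x _, be _ => False
  | al m, u n => n ≤ m
  | al m, x n => n < m
  | al m, p n => n ≤ m
  | al m, al n => m = n
  | al _, be _ => False
  | be m, u n => n < m
  | be m, x n => n ≤ m
  | be m, p n => n ≤ m
  | be _, al _ => False
  | be m, be n => m = n
  | p m, u n => n < m
  | p m, x n => n < m
  | p m, p n => n ≤ m
  | p _, al _ => False
  | p _, be _ => False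

instance : PartialOrder El where
  le := le
  le_refl a := by rcases a with n | n | n | n | n <;> simp [le]
  le_trans a b c hab hbc := by
    rcases a with a | a | a | a | a <;> rcases b with b | b | b | b | b <;>
      rcases c with c | c | c | c | c <;> simp only [le] at hab hbc ⊢ <;> omega
  le_antisymm a b hab hba := by
    rcases a with a | a | a | a | a <;> rcases b with b | b | b | b | b <;>
      simp only [le] at hab hba <;> first | exact hab.elim | exact hba.elim | rw [hab] | (congr 1; omega)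

/-- The closure of a set in the example. -/
inductive Der (S : Set El) : El → Prop
  | base {a : El} : a ∈ S → Der S a
  | p1 {n : ℕ} : Der S (u n) → Der S (be n) → Der S (p n)
  | p2 {n : ℕ} : Der S (al n) → Der S (x n) → Der S (p n)
  | u1 {n : ℕ} : Der S (u (n + 1)) → Der S (al n) → Der S (u n)
  | u2 {n : ℕ} : Der S (be (n + 1)) → Der S (al n) → Der S (u n)
  | x1 {n : ℕ} : Der S (al (n + 1)) → Der S (be n) → Der S (x n)
  | x2 {n : ℕ} : Der S (x (n + 1)) → Der S (be n) → Der S (x n)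

theorem Der.trans {S T : Set El} (h : ∀ a ∈ S, Der T a) {a : El} (ha : Der S a) : Der T a := by
  induction ha with
  | base h' => exact h _ h'
  | p1 _ _ h1 h2 => exact .p1 h1 h2
  | p2 _ _ h1 h2 => exact .p2 h1 h2
  | u1 _ _ h1 h2 => exact .u1 h1 h2
  | u2 _ _ h1 h2 => exact .u2 h1 h2
  | x1 _ _ h1 h2 => exact .x1 h1 h2
  | x2 _ _ h1 h2 => exact .x2 h1 h2

/-- The closure space of the example. -/
def K : ClosureSpace El where
  φ S := {a | Der S a}
  extensive _ _ ha := .base ha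
  monotone _ _ h _ ha := ha.trans fun _ hb => .base (h hb)
  idempotent S := Subset.antisymm (fun _ ha => ha.trans fun _ hb => hb) fun _ ha => .base ha
  empty := by
    ext a
    simp only [mem_ofPred_eq, mem_empty_iff_false, iff_false]
    intro ha
    induction ha with
    | base h => exact h
    | p1 _ _ h _ => exact h
    | p2 _ _ h _ => exact h
    | u1 _ _ h _ => exact h
    | u2 _ _ h _ => exact h
    | x1 _ _ h _ => exact h
    | x2 _ _ h _ => exact h

theorem isLUB_union {F₁ F₂ : Set El} {a b c : El} (h₁ : IsLUB F₁ a) (h₂ : IsLUB F₂ b)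
    (ha : a ≤ c) (hb : b ≤ c) (hc : ∀ d, a ≤ d → b ≤ d → c ≤ d) : IsLUB (F₁ ∪ F₂) c := by
  constructor
  · rintro y (hy | hy)
    · exact (h₁.1 hy).trans ha
    · exact (h₂.1 hy).trans hb
  · intro d hd
    exact hc d (h₁.2 fun y hy => hd (Or.inl hy)) (h₂.2 fun y hy => hd (Or.inr hy))

theorem Der.mono {S T : Set El} (h : S ⊆ T) {a : El} (ha : Der S a) : Der T a :=
  ha.trans fun _ hb => .base (h hb)

/-- Every derivation uses finitely many elements of `S`, and these have the right join. -/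
theorem Der.exists_finite {S : Set El} {a : El} (ha : Der S a) :
    ∃ F ⊆ S, F.Finite ∧ Der F a ∧ IsLUB F a := by
  induction ha with
  | @base a h =>
    exact ⟨{a}, singleton_subset_iff.2 h, finite_singleton a, .base rfl, isLUB_singleton⟩
  | @p1 n _ _ h1 h2 =>
    obtain ⟨F₁, hs₁, hf₁, hd₁, hl₁⟩ := h1
    obtain ⟨F₂, hs₂, hf₂, hd₂, hl₂⟩ := h2
    refine ⟨F₁ ∪ F₂, union_subset hs₁ hs₂, hf₁.union hf₂,
      .p1 (hd₁.mono subset_union_left) (hd₂.mono subset_union_right),
      isLUB_union hl₁ hl₂ (le_refl n) (le_refl n) ?_⟩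
    intro d; rcases d with d | d | d | d | d <;> intro h1 h2 <;>
      simp only [LE.le, le] at h1 h2 ⊢ <;> omega
  | @p2 n _ _ h1 h2 =>
    obtain ⟨F₁, hs₁, hf₁, hd₁, hl₁⟩ := h1
    obtain ⟨F₂, hs₂, hf₂, hd₂, hl₂⟩ := h2
    refine ⟨F₁ ∪ F₂, union_subset hs₁ hs₂, hf₁.union hf₂,
      .p2 (hd₁.mono subset_union_left) (hd₂.mono subset_union_right),
      isLUB_union hl₁ hl₂ (le_refl n) (le_refl n) ?_⟩
    intro d; rcases d with d | d | d | d | d <;> intro h1 h2 <;>
      simp only [LE.le, le] at h1 h2 ⊢ <;> omega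
  | @u1 n _ _ h1 h2 =>
    obtain ⟨F₁, hs₁, hf₁, hd₁, hl₁⟩ := h1
    obtain ⟨F₂, hs₂, hf₂, hd₂, hl₂⟩ := h2
    refine ⟨F₁ ∪ F₂, union_subset hs₁ hs₂, hf₁.union hf₂,
      .u1 (hd₁.mono subset_union_left) (hd₂.mono subset_union_right),
      isLUB_union hl₁ hl₂ (Nat.le_succ n) (le_refl n) ?_⟩
    intro d; rcases d with d | d | d | d | d <;> intro h1 h2 <;>
      simp only [LE.le, le] at h1 h2 ⊢ <;> omega
  | @u2 n _ _ h1 h2 =>
    obtain ⟨F₁, hs₁, hf₁, hd₁, hl₁⟩ := h1
    obtain ⟨F₂, hs₂, hf₂, hd₂, hl₂⟩ := h2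
    refine ⟨F₁ ∪ F₂, union_subset hs₁ hs₂, hf₁.union hf₂,
      .u2 (hd₁.mono subset_union_left) (hd₂.mono subset_union_right),
      isLUB_union hl₁ hl₂ (Nat.lt_succ_self n) (le_refl n) ?_⟩
    intro d; rcases d with d | d | d | d | d <;> intro h1 h2 <;>
      simp only [LE.le, le] at h1 h2 ⊢ <;> omega
  | @x1 n _ _ h1 h2 =>
    obtain ⟨F₁, hs₁, hf₁, hd₁, hl₁⟩ := h1
    obtain ⟨F₂, hs₂, hf₂, hd₂, hl₂⟩ := h2
    refine ⟨F₁ ∪ F₂, union_subset hs₁ hs₂, hf₁.union hf₂,
      .x1 (hd₁.mono subset_union_left) (hd₂.mono subset_union_right),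
      isLUB_union hl₁ hl₂ (Nat.lt_succ_self n) (le_refl n) ?_⟩
    intro d; rcases d with d | d | d | d | d <;> intro h1 h2 <;>
      simp only [LE.le, le] at h1 h2 ⊢ <;> omega
  | @x2 n _ _ h1 h2 =>
    obtain ⟨F₁, hs₁, hf₁, hd₁, hl₁⟩ := h1
    obtain ⟨F₂, hs₂, hf₂, hd₂, hl₂⟩ := h2
    refine ⟨F₁ ∪ F₂, union_subset hs₁ hs₂, hf₁.union hf₂,
      .x2 (hd₁.mono subset_union_left) (hd₂.mono subset_union_right),
      isLUB_union hl₁ hl₂ (Nat.le_succ n) (le_refl n) ?_⟩
    intro d; rcases d with d | d | d | d | d <;> intro h1 h2 <;>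
      simp only [LE.le, le] at h1 h2 ⊢ <;> omega

theorem hasSemilatticeType : K.HasSemilatticeType := by
  refine ⟨?_, inferInstance, ?_⟩
  · intro S
    apply Subset.antisymm
    · intro a ha
      obtain ⟨F, hFS, hfin, hd, -⟩ := Der.exists_finite ha
      exact mem_biUnion (x := F) ⟨hFS, hfin⟩ hd
    · exact iUnion₂_subset fun F hF => K.monotone _ _ hF.1
  · rintro S a ⟨ha, hmin⟩
    obtain ⟨F, hFS, -, hd, hl⟩ := Der.exists_finite ha
    rw [← hmin F hFS hd]
    exact hl

/-- Closed sets are the sets closed under the rules. -/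
theorem isClosed_iff {T : Set El} : K.IsClosed T ↔
    (∀ n, u n ∈ T → be n ∈ T → p n ∈ T) ∧ (∀ n, al n ∈ T → x n ∈ T → p n ∈ T) ∧
    (∀ n, u (n + 1) ∈ T → al n ∈ T → u n ∈ T) ∧ (∀ n, be (n + 1) ∈ T → al n ∈ T → u n ∈ T) ∧
    (∀ n, al (n + 1) ∈ T → be n ∈ T → x n ∈ T) ∧ (∀ n, x (n + 1) ∈ T → be n ∈ T → x n ∈ T) := by
  constructor
  · intro h
    have h' : ∀ a, Der T a → a ∈ T := fun a ha => by
      have : a ∈ K.φ T := ha
      rwa [h] at this
    exact ⟨fun n h1 h2 => h' _ (.p1 (.base h1) (.base h2)),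
      fun n h1 h2 => h' _ (.p2 (.base h1) (.base h2)),
      fun n h1 h2 => h' _ (.u1 (.base h1) (.base h2)),
      fun n h1 h2 => h' _ (.u2 (.base h1) (.base h2)),
      fun n h1 h2 => h' _ (.x1 (.base h1) (.base h2)),
      fun n h1 h2 => h' _ (.x2 (.base h1) (.base h2))⟩
  · rintro ⟨h1, h2, h3, h4, h5, h6⟩
    apply Subset.antisymm _ (K.extensive T)
    intro a ha
    induction ha with
    | base h => exact h
    | p1 _ _ ha hb => exact h1 _ ha hb
    | p2 _ _ ha hb => exact h2 _ ha hb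
    | u1 _ _ ha hb => exact h3 _ ha hb
    | u2 _ _ ha hb => exact h4 _ ha hb
    | x1 _ _ ha hb => exact h5 _ ha hb
    | x2 _ _ ha hb => exact h6 _ ha hb

/-- The closure of the union of two clopen sets is clopen. -/
theorem clopen_union {C₁ C₂ : Set El} (h₁ : C₁ ∈ K.Clop) (h₂ : C₂ ∈ K.Clop) :
    K.φ (C₁ ∪ C₂) ∈ K.Clop := by
  refine ⟨K.idempotent _, ?_⟩
  set a := K.φ (C₁ ∪ C₂) with ha
  obtain ⟨a1, a2, a3, a4, a5, a6⟩ := isClosed_iff.1 (show K.IsClosed a from K.idempotent _)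
  have hsub : ∀ y, y ∈ C₁ ∪ C₂ → y ∈ a := fun y hy => K.extensive _ hy
  -- a property of clopen sets inside `a`
  have clop : ∀ C : Set El, C ∈ K.Clop → C ⊆ a →
      (∀ n, u n ∈ C → al n ∉ a → be n ∈ a → x n ∉ a → False) ∧
      (∀ n, x n ∈ C → be n ∉ a → al n ∈ a → u n ∉ a → False) := by
    rintro C ⟨hC, hC'⟩ hCa
    obtain ⟨b1, b2, b3, b4, b5, b6⟩ := isClosed_iff.1 hC
    obtain ⟨c1, c2, c3, c4, c5, c6⟩ := isClosed_iff.1 (show K.IsClosed Cᶜ from hC')
    simp only [mem_compl_iff] at c1 c2 c3 c4 c5 c6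
    constructor
    · intro n hu hal hbe hx
      have k1 : u (n + 1) ∈ C := by
        by_contra h
        exact c3 n h (fun h' => hal (hCa h')) hu
      have k2 : be (n + 1) ∈ C := by
        by_contra h
        exact c4 n h (fun h' => hal (hCa h')) hu
      have k3 : al (n + 1) ∉ C := fun h => hx (a5 n (hCa h) hbe)
      have k4 : x (n + 1) ∉ C := fun h => hx (a6 n (hCa h) hbe)
      exact c2 (n + 1) k3 k4 (b1 (n + 1) k1 k2)
    · intro n hx hbe hal hu
      have k1 : al (n + 1) ∈ C := by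
        by_contra h
        exact c5 n h (fun h' => hbe (hCa h')) hx
      have k2 : x (n + 1) ∈ C := by
        by_contra h
        exact c6 n h (fun h' => hbe (hCa h')) hx
      have k3 : u (n + 1) ∉ C := fun h => hu (a3 n (hCa h) hal)
      have k4 : be (n + 1) ∉ C := fun h => hu (a4 n (hCa h) hal)
      exact c1 (n + 1) k3 k4 (b2 (n + 1) k1 k2)
  have clop' : ∀ y, y ∈ C₁ ∪ C₂ → ∃ C : Set El, C ∈ K.Clop ∧ C ⊆ a ∧ y ∈ C := by
    rintro y (hy | hy)
    · exact ⟨C₁, h₁, fun z hz => hsub z (Or.inl hz), hy⟩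
    · exact ⟨C₂, h₂, fun z hz => hsub z (Or.inr hz), hy⟩
  change K.IsClosed aᶜ
  rw [isClosed_iff]
  simp only [mem_compl_iff]
  refine ⟨?_, ?_, ?_, ?_, ?_, ?_⟩
  · intro n hu hbe hp
    have hp' : Der (C₁ ∪ C₂) (p n) := hp
    cases hp' with
    | base h =>
      obtain ⟨C, hC, hCa, hy⟩ := clop' _ h
      exact (isClosed_iff.1 (show K.IsClosed Cᶜ from hC.2)).1 n (fun h' => hu (hCa h'))
        (fun h' => hbe (hCa h')) hy
    | p1 h1 h2 => exact hu h1
    | p2 h1 h2 =>
      have h2' : Der (C₁ ∪ C₂) (x n) := h2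
      cases h2' with
      | base h =>
        obtain ⟨C, hC, hCa, hy⟩ := clop' _ h
        exact (clop C hC hCa).2 n hy hbe h1 hu
      | x1 _ h4 => exact hbe h4
      | x2 _ h4 => exact hbe h4
  · intro n hal hx hp
    have hp' : Der (C₁ ∪ C₂) (p n) := hp
    cases hp' with
    | base h =>
      obtain ⟨C, hC, hCa, hy⟩ := clop' _ h
      exact (isClosed_iff.1 (show K.IsClosed Cᶜ from hC.2)).2.1 n (fun h' => hal (hCa h'))
        (fun h' => hx (hCa h')) hy
    | p1 h1 h2 =>
      have h1' : Der (C₁ ∪ C₂) (u n) := h1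
      cases h1' with
      | base h =>
        obtain ⟨C, hC, hCa, hy⟩ := clop' _ h
        exact (clop C hC hCa).1 n hy hal h2 hx
      | u1 _ h4 => exact hal h4
      | u2 _ h4 => exact hal h4
    | p2 h1 h2 => exact hal h1
  · intro n h1 h2 h3
    have h3' : Der (C₁ ∪ C₂) (u n) := h3
    cases h3' with
    | base h =>
      obtain ⟨C, hC, hCa, hy⟩ := clop' _ h
      exact (isClosed_iff.1 (show K.IsClosed Cᶜ from hC.2)).2.2.1 n (fun h' => h1 (hCa h'))
        (fun h' => h2 (hCa h')) hy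
    | u1 _ h4 => exact h2 h4
    | u2 _ h4 => exact h2 h4
  · intro n h1 h2 h3
    have h3' : Der (C₁ ∪ C₂) (u n) := h3
    cases h3' with
    | base h =>
      obtain ⟨C, hC, hCa, hy⟩ := clop' _ h
      exact (isClosed_iff.1 (show K.IsClosed Cᶜ from hC.2)).2.2.2.1 n (fun h' => h1 (hCa h'))
        (fun h' => h2 (hCa h')) hy
    | u1 _ h4 => exact h2 h4
    | u2 _ h4 => exact h2 h4
  · intro n h1 h2 h3
    have h3' : Der (C₁ ∪ C₂) (x n) := h3
    cases h3' with
    | base h =>
      obtain ⟨C, hC, hCa, hy⟩ := clop' _ h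
      exact (isClosed_iff.1 (show K.IsClosed Cᶜ from hC.2)).2.2.2.2.1 n (fun h' => h1 (hCa h'))
        (fun h' => h2 (hCa h')) hy
    | x1 _ h4 => exact h2 h4
    | x2 _ h4 => exact h2 h4
  · intro n h1 h2 h3
    have h3' : Der (C₁ ∪ C₂) (x n) := h3
    cases h3' with
    | base h =>
      obtain ⟨C, hC, hCa, hy⟩ := clop' _ h
      exact (isClosed_iff.1 (show K.IsClosed Cᶜ from hC.2)).2.2.2.2.2 n (fun h' => h1 (hCa h'))
        (fun h' => h2 (hCa h')) hy
    | x1 _ h4 => exact h2 h4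
    | x2 _ h4 => exact h2 h4

theorem compl_clopen {C : Set El} (h : C ∈ K.Clop) : Cᶜ ∈ K.Clop := by
  refine ⟨h.2, ?_⟩
  change K.IsClosed Cᶜᶜ
  rw [compl_compl]
  exact h.1

theorem clopIsLattice : K.ClopIsLattice := by
  rintro ⟨a, ha⟩ ⟨b, hb⟩
  constructor
  · refine ⟨⟨K.φ (a ∪ b), clopen_union ha hb⟩, ?_, ?_⟩
    · rintro c (rfl | rfl)
      · exact subset_union_left.trans (K.extensive _)
      · exact subset_union_right.trans (K.extensive _)
    · rintro ⟨d, hd⟩ hub
      have h1 : a ⊆ d := hub (Or.inl rfl)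
      have h2 : b ⊆ d := hub (Or.inr rfl)
      have h3 := K.monotone _ _ (union_subset h1 h2)
      change K.φ (a ∪ b) ⊆ d
      rwa [show K.φ d = d from hd.1] at h3
  · refine ⟨⟨(K.φ (aᶜ ∪ bᶜ))ᶜ, compl_clopen (clopen_union (compl_clopen ha) (compl_clopen hb))⟩,
      ?_, ?_⟩
    · rintro c (rfl | rfl)
      · exact compl_subset_comm.1 (subset_union_left.trans (K.extensive _))
      · exact compl_subset_comm.1 (subset_union_right.trans (K.extensive _))
    · rintro ⟨d, hd⟩ hlb
      have h1 : d ⊆ a := hlb (Or.inl rfl)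
      have h2 : d ⊆ b := hlb (Or.inr rfl)
      have h3 := K.monotone _ _
        (union_subset (compl_subset_compl.2 h1) (compl_subset_compl.2 h2))
      change d ⊆ (K.φ (aᶜ ∪ bᶜ))ᶜ
      rw [show K.φ dᶜ = dᶜ from hd.2] at h3
      exact subset_compl_comm.1 h3

/-- The regular closed set which is not clopen. -/
def bad : Set El := {a | ∃ n, a = u n ∨ a = be n ∨ a = p n}

theorem bad_reg : bad ∈ K.Reg := by
  have h1 : K.φ badᶜ = {a | ∃ n, a = x n ∨ a = al n ∨ a = p n} := by
    apply Subset.antisymm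
    · have h2 : K.IsClosed {a | ∃ n, a = x n ∨ a = al n ∨ a = p n} := by
        rw [isClosed_iff]
        simp
      intro a ha
      have h3 : badᶜ ⊆ {a | ∃ n, a = x n ∨ a = al n ∨ a = p n} := by
        intro b hb
        rcases b with b | b | b | b | b <;> simp [bad] at hb ⊢
      have h4 := K.monotone _ _ h3 ha
      rwa [show K.φ _ = _ from h2] at h4
    · rintro a ⟨n, rfl | rfl | rfl⟩
      · exact .base (by simp [bad])
      · exact .base (by simp [bad])
      · exact .p2 (.base (by simp [bad])) (.base (by simp [bad]))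
  change bad = K.φ (K.φ badᶜ)ᶜ
  rw [h1]
  apply Subset.antisymm
  · rintro a ⟨n, rfl | rfl | rfl⟩
    · exact .base (by simp)
    · exact .base (by simp)
    · exact .p1 (.base (by simp)) (.base (by simp))
  · have h2 : K.IsClosed bad := by
      rw [isClosed_iff]
      simp [bad]
    intro a ha
    have h3 : {a | ∃ n, a = x n ∨ a = al n ∨ a = p n}ᶜ ⊆ bad := by
      intro b hb
      rcases b with b | b | b | b | b <;> simp [bad] at hb ⊢
    have h4 := K.monotone _ _ h3 ha
    rwa [show K.φ bad = bad from h2] at h4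

theorem bad_not_clop : bad ∉ K.Clop := by
  rintro ⟨-, h⟩
  have h1 := (isClosed_iff.1 (show K.IsClosed badᶜ from h)).2.1 0
  simp [bad] at h1

/-- There is a closure space `(P, φ)` of semilattice type such that `Clop(P, φ)` is a lattice but
`Clop(P, φ) ≠ Reg(P, φ)`. -/
theorem result : ∃ (P : Type) (K : ClosureSpace P), K.HasSemilatticeType ∧ K.ClopIsLattice ∧
    K.Clop ≠ K.Reg :=
  ⟨El, K, hasSemilatticeType, clopIsLattice, fun h => bad_not_clop (h ▸ bad_reg)⟩

end Pool.Agent.Results.MP_df2171_co.ClopVersusReg
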